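import Pool.Agent.Helper97.Tns.Goals

/-!
# LIST: extraction of a monomial
-/

open MvPolynomial
open Pool.Agent.Helper97.Tns

namespace Pool.Agent.Helper90.Tns

theorem genD_hom (n : ℕ) : (genD n).IsHomogeneous n := by
  unfold genD
  rw [Matrix.det_apply]
  refine MvPolynomial.IsHomogeneous.sum _ _ _ fun σ _ => ?_
  have h1 : (∏ i, (Matrix.mvPolynomialX (Fin n) (Fin n) ℂ) (σ i) i).IsHomogeneous n := by
    have h := MvPolynomial.IsHomogeneous.prod (Finset.univ : Finset (Fin n))
      (fun i => (X (σ i, i) : MvPolynomial (Fin n × Fin n) ℂ)) (fun _ => 1)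
      (fun i _ => MvPolynomial.isHomogeneous_X _ _)
    simpa using h
  rcases Int.units_eq_one_or (Equiv.Perm.sign σ) with h | h
  · rw [h, one_smul]
    exact h1
  · rw [h, Units.smul_def]
    have : ((-1 : ℤˣ) : ℤ) • (∏ i, (Matrix.mvPolynomialX (Fin n) (Fin n) ℂ) (σ i) i) =
        -(∏ i, (Matrix.mvPolynomialX (Fin n) (Fin n) ℂ) (σ i) i) := by
      simp
    rw [this]
    exact h1.neg

theorem list (h2 : S_PHI2) (h3 : S_PHI3) (he : S_ENT) : S_LIST := by
  classical
  intro n hn 𝒥 ι _ T hint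
  set s : Set (RR n) := {F : RR n | ∃ j I, F = Ent (T j) I} with hs
  obtain ⟨p, hp, hev⟩ := hint
  set r := p.natDegree with hr
  rw [Polynomial.eval₂_eq_sum_range, ← hr] at hev
  have h4 : ∑ i ∈ Finset.range (r + 1),
      Phi n r (algebraMap (Algebra.adjoin ℂ s) (RR n) (p.coeff i) * genD n ^ i) = 0 := by
    rw [← map_sum, hev, map_zero]
  rw [Finset.sum_range_succ] at h4
  have h5 : p.coeff r = 1 := hp.coeff_natDegree
  rw [h5, map_one, one_mul] at h4
  obtain ⟨l, hl, hl'⟩ : ∃ l ∈ Finset.range r,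
      Phi n r (algebraMap (Algebra.adjoin ℂ s) (RR n) (p.coeff l) * genD n ^ l) ≠ 0 := by
    by_contra hcon
    push Not at hcon
    rw [Finset.sum_eq_zero hcon, zero_add] at h4
    exact h2 n r h4
  have hlr : l < r := Finset.mem_range.1 hl
  set c : RR n := algebraMap (Algebra.adjoin ℂ s) (RR n) (p.coeff l) with hc
  have hcmem : c ∈ Submodule.span ℂ (Submonoid.closure s : Set (RR n)) := by
    rw [← Algebra.adjoin_eq_span]
    exact (p.coeff l).2
  obtain ⟨m, hm, hm'⟩ : ∃ m ∈ Submonoid.closure s, Phi n r (m * genD n ^ l) ≠ 0 := by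
    by_contra hcon
    push Not at hcon
    apply hl'
    have hle : Submodule.span ℂ (Submonoid.closure s : Set (RR n)) ≤
        LinearMap.ker ((Phi n r).comp (LinearMap.mulRight ℂ (genD n ^ l))) := by
      rw [Submodule.span_le]
      intro m hm
      exact hcon m hm
    exact hle hcmem
  obtain ⟨L0, hL0, rfl⟩ := Submonoid.exists_list_of_mem_closure hm
  obtain ⟨L, hL⟩ : ∃ L : List (Σ j, ι j → Fin n), L.map (fun τ => Ent (T τ.1) τ.2) = L0 := by
    clear hm hm'
    induction L0 with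
    | nil => exact ⟨[], rfl⟩
    | cons y L0 ih =>
      obtain ⟨L, hL⟩ := ih (fun z hz => hL0 z (List.mem_cons_of_mem _ hz))
      obtain ⟨j, I, hjI⟩ := hL0 y List.mem_cons_self
      exact ⟨⟨j, I⟩ :: L, by rw [List.map_cons, hL, hjI]⟩
  rw [← hL] at hm'
  have hhom : ∀ L : List (Σ j, ι j → Fin n),
      ((L.map fun τ => Ent (T τ.1) τ.2).prod).IsHomogeneous
        (L.map fun τ => Fintype.card (ι τ.1)).sum := by
    intro L
    induction L with
    | nil => simpa using MvPolynomial.isHomogeneous_one _ _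
    | cons τ L ih =>
      rw [List.map_cons, List.prod_cons, List.map_cons, List.sum_cons]
      exact (he n (ι τ.1) (T τ.1) τ.2).1.mul ih
  have hdeg := h3 n r _ _ ((hhom L).mul ((genD_hom n).pow l)) hm'
  refine ⟨r, l, L, ?_, ?_, hm'⟩
  · rintro rfl
    simp only [List.map_nil, List.sum_nil, zero_add] at hdeg
    have := Nat.eq_of_mul_eq_mul_left hn hdeg
    omega
  · rw [← hdeg]

end Pool.Agent.Helper90.Tns
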